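import Pool.Agent.helper76.DC.NF

/-!
# The automaton of `A h B g⁻¹`

A state is `(phase, rest of the current word)`.
-/

set_option autoImplicit false

namespace Pool.Agent.helper76.DC

abbrev Q := ℕ × List ℕ

/-- token data: words for `A`, words for `B`, `h`, `g⁻¹` -/
abbrev Inp := (List (List ℕ) × List (List ℕ)) × (List ℕ × List ℕ)

/-- transitions -/
def succ (i : Inp) (p : Q) : List (ℕ × Q) :=
  if p.2 = [] then
    (if p.1 = 0 then (3, (1, i.2.1)) :: i.1.1.map (fun a => (3, (0, a)))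
     else if p.1 = 1 then [(3, (2, []))]
     else if p.1 = 2 then (3, (3, i.2.2)) :: i.1.2.map (fun a => (3, (2, a)))
     else [])
  else [(p.2.headI, (p.1, p.2.tail))]

inductive Path (i : Inp) : Q → List ℕ → Q → Prop
  | nil (p : Q) : Path i p [] p
  | cons {p p' q : Q} {l : ℕ} {w : List ℕ} (h : (l, p') ∈ succ i p) (h' : Path i p' w q) :
      Path i p (l :: w) q

theorem Path.trans {i : Inp} {p q r : Q} {u v : List ℕ} (h : Path i p u q) (h' : Path i q v r) :
    Path i p (u ++ v) r := by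
  induction h with
  | nil p => exact h'
  | cons h1 _ ih => exact Path.cons h1 (ih h')

theorem Path.single {i : Inp} {p q : Q} {l : ℕ} (h : (l, q) ∈ succ i p) : Path i p [l] q :=
  Path.cons h (Path.nil q)

theorem path_word (i : Inp) (n : ℕ) (u : List ℕ) : Path i (n, u) u (n, []) := by
  induction u with
  | nil => exact Path.nil _
  | cons l u ih =>
    refine Path.cons ?_ ih
    simp [succ]

abbrev start : Q := (0, [])
abbrev fin : Q := (3, [])

/-- subgroup generated by a list of token words -/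
def tsub (L : List (List ℕ)) : Subgroup B3 := Subgroup.closure {x | ∃ w ∈ L, tval w = x}

/-- the list is closed under inverses -/
def InvC (L : List (List ℕ)) : Prop := ∀ w ∈ L, ∃ w' ∈ L, tval w' = (tval w)⁻¹

theorem tv3 : tv 3 = 1 := rfl

/-- `A`-loops -/
theorem loopA {i : Inp} (hi : InvC i.1.1) {a : B3} (ha : a ∈ tsub i.1.1) :
    ∃ w, Path i start w start ∧ tval w = a := by
  have h1 : a ∈ Submonoid.closure ({x | ∃ w ∈ i.1.1, tval w = x} ∪ {x | ∃ w ∈ i.1.1, tval w = x}⁻¹) := by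
    rw [← Subgroup.closure_toSubmonoid]
    exact ha
  refine Submonoid.closure_induction (motive := fun a _ => ∃ w, Path i start w start ∧ tval w = a)
    ?_ ?_ ?_ h1
  · intro x hx
    have h2 : ∃ w ∈ i.1.1, tval w = x := by
      rcases hx with hx | hx
      · exact hx
      · obtain ⟨w, hw, hx⟩ := hx
        obtain ⟨w', hw', h3⟩ := hi w hw
        exact ⟨w', hw', by rw [h3, hx, inv_inv]⟩
    obtain ⟨w, hw, rfl⟩ := h2
    refine ⟨3 :: w, Path.cons ?_ (path_word i 0 w), ?_⟩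
    · simp [succ, hw]
    · rw [tval_cons, tv3, one_mul]
  · exact ⟨[], Path.nil _, rfl⟩
  · rintro x y _ _ ⟨u, hu, rfl⟩ ⟨v, hv, rfl⟩
    exact ⟨u ++ v, hu.trans hv, tval_append u v⟩

theorem loopB {i : Inp} (hi : InvC i.1.2) {a : B3} (ha : a ∈ tsub i.1.2) :
    ∃ w, Path i (2, []) w (2, []) ∧ tval w = a := by
  have h1 : a ∈ Submonoid.closure ({x | ∃ w ∈ i.1.2, tval w = x} ∪ {x | ∃ w ∈ i.1.2, tval w = x}⁻¹) := by
    rw [← Subgroup.closure_toSubmonoid]
    exact ha
  refine Submonoid.closure_induction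
    (motive := fun a _ => ∃ w, Path i (2, []) w (2, []) ∧ tval w = a) ?_ ?_ ?_ h1
  · intro x hx
    have h2 : ∃ w ∈ i.1.2, tval w = x := by
      rcases hx with hx | hx
      · exact hx
      · obtain ⟨w, hw, hx⟩ := hx
        obtain ⟨w', hw', h3⟩ := hi w hw
        exact ⟨w', hw', by rw [h3, hx, inv_inv]⟩
    obtain ⟨w, hw, rfl⟩ := h2
    refine ⟨3 :: w, Path.cons ?_ (path_word i 2 w), ?_⟩
    · simp [succ, hw]
    · rw [tval_cons, tv3, one_mul]
  · exact ⟨[], Path.nil _, rfl⟩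
  · rintro x y _ _ ⟨u, hu, rfl⟩ ⟨v, hv, rfl⟩
    exact ⟨u ++ v, hu.trans hv, tval_append u v⟩

/-- every element of `A h B g'` is the value of a path -/
theorem exists_path {i : Inp} (hA : InvC i.1.1) (hB : InvC i.1.2) {a b : B3}
    (ha : a ∈ tsub i.1.1) (hb : b ∈ tsub i.1.2) :
    ∃ w, Path i start w fin ∧ tval w = a * tval i.2.1 * b * tval i.2.2 := by
  obtain ⟨u, hu, rfl⟩ := loopA hA ha
  obtain ⟨v, hv, rfl⟩ := loopB hB hb
  have h1 : Path i start (3 :: i.2.1) (1, []) :=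
    Path.cons (by simp [succ]) (path_word i 1 i.2.1)
  have h2 : Path i (1, []) [3] (2, []) := Path.single (by simp [succ])
  have h3 : Path i (2, []) (3 :: i.2.2) fin :=
    Path.cons (by simp [succ]) (path_word i 3 i.2.2)
  refine ⟨u ++ ((3 :: i.2.1) ++ ([3] ++ (v ++ (3 :: i.2.2)))),
    hu.trans (h1.trans (h2.trans (hv.trans h3))), ?_⟩
  simp only [tval_append, tval_cons, tv3, one_mul, tval_nil, mul_assoc]

/-- what a path from `p` to the end spells -/
def Tgt (i : Inp) (p : Q) (x : B3) : Prop :=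
  (p.1 = 0 → ∃ a ∈ tsub i.1.1, ∃ b ∈ tsub i.1.2, x = tval p.2 * a * tval i.2.1 * b * tval i.2.2) ∧
  (p.1 = 1 → ∃ b ∈ tsub i.1.2, x = tval p.2 * b * tval i.2.2) ∧
  (p.1 = 2 → ∃ b ∈ tsub i.1.2, x = tval p.2 * b * tval i.2.2) ∧
  (p.1 = 3 → x = tval p.2)

theorem tgt_of_path {i : Inp} {p q : Q} {w : List ℕ} (h : Path i p w q) (hq : q = fin) :
    Tgt i p (tval w) := by
  induction h with
  | nil p =>
    subst hq
    exact ⟨by simp, by simp, by simp, fun _ => rfl⟩
  | @cons p p' q l w h _ ih =>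
    have ih := ih hq
    obtain ⟨n, u⟩ := p
    rw [tval_cons]
    rcases u with _ | ⟨c, u⟩
    · simp only [succ, if_true] at h
      split_ifs at h with h0 h1 h2
      · subst h0
        rw [List.mem_cons] at h
        rcases h with h | h
        · rw [Prod.mk.injEq] at h
          obtain ⟨rfl, rfl⟩ := h
          obtain ⟨b, hb, hx⟩ := ih.2.1 rfl
          refine ⟨fun _ => ⟨1, one_mem _, b, hb, ?_⟩, by simp, by simp, by simp⟩
          rw [hx, tv3, tval_nil]
          simp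
        · rw [List.mem_map] at h
          obtain ⟨a, ha, h⟩ := h
          rw [Prod.mk.injEq] at h
          obtain ⟨rfl, rfl⟩ := h
          obtain ⟨a', ha', b, hb, hx⟩ := ih.1 rfl
          refine ⟨fun _ => ⟨tval a * a', mul_mem (Subgroup.subset_closure ⟨a, ha, rfl⟩) ha', b, hb, ?_⟩,
            by simp, by simp, by simp⟩
          rw [hx, tv3, tval_nil]
          simp [mul_assoc]
      · subst h1
        rw [List.mem_singleton, Prod.mk.injEq] at h
        obtain ⟨rfl, rfl⟩ := h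
        obtain ⟨b, hb, hx⟩ := ih.2.2.1 rfl
        refine ⟨by simp, fun _ => ⟨b, hb, ?_⟩, by simp, by simp⟩
        rw [hx, tv3, tval_nil]
        simp
      · subst h2
        rw [List.mem_cons] at h
        rcases h with h | h
        · rw [Prod.mk.injEq] at h
          obtain ⟨rfl, rfl⟩ := h
          have hx := ih.2.2.2 rfl
          refine ⟨by simp, by simp, fun _ => ⟨1, one_mem _, ?_⟩, by simp⟩
          rw [hx, tv3, tval_nil]
          simp
        · rw [List.mem_map] at h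
          obtain ⟨a, ha, h⟩ := h
          rw [Prod.mk.injEq] at h
          obtain ⟨rfl, rfl⟩ := h
          obtain ⟨b, hb, hx⟩ := ih.2.2.1 rfl
          refine ⟨by simp, by simp,
            fun _ => ⟨tval a * b, mul_mem (Subgroup.subset_closure ⟨a, ha, rfl⟩) hb, ?_⟩, by simp⟩
          rw [hx, tv3, tval_nil]
          simp [mul_assoc]
      · simp at h
    · have h' : (l, p') = (c, (n, u)) := by simpa [succ] using h
      rw [Prod.mk.injEq] at h'
      obtain ⟨rfl, rfl⟩ := h'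
      refine ⟨fun hn => ?_, fun hn => ?_, fun hn => ?_, fun hn => ?_⟩
      · obtain ⟨a, ha, b, hb, hx⟩ := ih.1 hn
        refine ⟨a, ha, b, hb, ?_⟩
        rw [hx, tval_cons]
        simp [mul_assoc]
      · obtain ⟨b, hb, hx⟩ := ih.2.1 hn
        refine ⟨b, hb, ?_⟩
        rw [hx, tval_cons]
        simp [mul_assoc]
      · obtain ⟨b, hb, hx⟩ := ih.2.2.1 hn
        refine ⟨b, hb, ?_⟩
        rw [hx, tval_cons]
        simp [mul_assoc]
      · rw [ih.2.2.2 hn, tval_cons]

/-! ### the heap property -/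

theorem heap (A B : Subgroup B3) (h g' : B3) {k l n : ℤ} {a1 a2 a3 b1 b2 b3 : B3}
    (ha1 : a1 ∈ A) (ha2 : a2 ∈ A) (ha3 : a3 ∈ A) (hb1 : b1 ∈ B) (hb2 : b2 ∈ B) (hb3 : b3 ∈ B)
    (h1 : a1 * h * b1 * g' = Z ^ k) (h2 : a2 * h * b2 * g' = Z ^ l)
    (h3 : a3 * h * b3 * g' = Z ^ n) :
    ∃ a ∈ A, ∃ b ∈ B, a * h * b * g' = Z ^ (k - l + n) := by
  refine ⟨a1 * a2⁻¹ * a3, mul_mem (mul_mem ha1 (inv_mem ha2)) ha3, b3 * b2⁻¹ * b1,
    mul_mem (mul_mem hb3 (inv_mem hb2)) hb1, ?_⟩
  have e3 : a3 * h * b3 = Z ^ n * g'⁻¹ := by rw [← h3]; group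
  have e2 : a2⁻¹ * g'⁻¹ * b2⁻¹ = Z ^ (-l) * h := by
    have e4 : a2 * h * b2 = Z ^ l * g'⁻¹ := by rw [← h2]; group
    have e5 : g'⁻¹ = Z ^ (-l) * (a2 * h * b2) := by
      rw [e4, ← mul_assoc, ← zpow_add]
      simp
    rw [e5, ← mul_assoc, ← mul_assoc, ← Zz_comm]
    group
  calc a1 * a2⁻¹ * a3 * h * (b3 * b2⁻¹ * b1) * g'
      = a1 * a2⁻¹ * (a3 * h * b3) * b2⁻¹ * b1 * g' := by group
    _ = a1 * a2⁻¹ * (Z ^ n * g'⁻¹) * b2⁻¹ * b1 * g' := by rw [e3]
    _ = Z ^ n * (a1 * (a2⁻¹ * g'⁻¹ * b2⁻¹) * b1 * g') := by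
        have : a1 * a2⁻¹ * (Z ^ n * g'⁻¹) = Z ^ n * (a1 * a2⁻¹ * g'⁻¹) := by
          rw [← mul_assoc, ← Zz_comm, mul_assoc]
        rw [this]
        group
    _ = Z ^ n * (a1 * (Z ^ (-l) * h) * b1 * g') := by rw [e2]
    _ = Z ^ n * (Z ^ (-l) * (a1 * h * b1 * g')) := by
        have : a1 * (Z ^ (-l) * h) = Z ^ (-l) * (a1 * h) := by
          rw [← mul_assoc, ← Zz_comm, mul_assoc]
        rw [this]
        simp only [mul_assoc]
    _ = Z ^ (k - l + n) := by
        rw [h1, ← zpow_add, ← zpow_add]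
        congr 1
        ring

theorem exists_modulus (S : Set ℤ) (hS : ∀ k ∈ S, ∀ l ∈ S, ∀ n ∈ S, k - l + n ∈ S)
    (h0 : (0 : ℤ) ∉ S) : ∃ m : ℕ, 0 < m ∧ ∀ k ∈ S, ¬ ((m : ℤ) ∣ k) := by
  by_cases h : ∃ k ∈ S, ∃ l ∈ S, k ≠ l
  · obtain ⟨k, hk, l, hl, hkl⟩ := h
    refine ⟨(k - l).natAbs, Int.natAbs_pos.2 (sub_ne_zero.2 hkl), ?_⟩
    intro n hn hd
    rw [Int.natAbs_dvd] at hd
    obtain ⟨t, ht⟩ := hd
    have key : ∀ j : ℤ, n - j * (k - l) ∈ S := by
      intro j
      induction j using Int.induction_on with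
      | zero => simpa using hn
      | succ j ih =>
        have := hS l hl k hk _ ih
        have e : l - k + (n - j * (k - l)) = n - (j + 1) * (k - l) := by ring
        rwa [e] at this
      | pred j ih =>
        have := hS k hk l hl _ ih
        have e : k - l + (n - -j * (k - l)) = n - (-j - 1) * (k - l) := by ring
        rwa [e] at this
    have h1 := key t
    rw [ht] at h1
    have e : (k - l) * t - t * (k - l) = 0 := by ring
    rw [e] at h1
    exact h0 h1
  · push Not at h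
    by_cases h1 : S.Nonempty
    · obtain ⟨k, hk⟩ := h1
      refine ⟨k.natAbs + 1, Nat.succ_pos _, ?_⟩
      intro l hl hd
      have : k = l := h k hk l hl
      subst this
      have hk0 : k ≠ 0 := fun h2 => h0 (h2 ▸ hk)
      have h2 := Int.natAbs_dvd_natAbs.2 hd
      rw [Int.natAbs_natCast] at h2
      have h3 := Nat.le_of_dvd (Int.natAbs_pos.2 hk0) h2
      omega
    · rw [Set.not_nonempty_iff_eq_empty] at h1
      refine ⟨1, Nat.one_pos, ?_⟩
      intro k hk
      rw [h1] at hk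
      exact absurd hk (Set.notMem_empty k)

end Pool.Agent.helper76.DC
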