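import Pool.Agent.helper76.DC.Aut

/-!
# Certificates: finite saturated tables
-/

set_option autoImplicit false

namespace Pool.Agent.helper76.DC

/-- `((p, q), k)`: some path from `p` to `q` spells `Z^k` modulo `Z^m` -/
abbrev Row := (Q × Q) × ℕ

/-- modulus minus one, states, table -/
abbrev Cert := ℕ × (List Q × List Row)

/-- the closure conditions -/
def Good (i : Inp) (c : Cert) : Prop :=
  start ∈ c.2.1 ∧
  (∀ p ∈ c.2.1, ∀ t ∈ succ i p, t.2 ∈ c.2.1) ∧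
  (∀ p ∈ c.2.1, ((p, p), 0) ∈ c.2.2) ∧
  (∀ x ∈ c.2.2, ∀ y ∈ c.2.2, x.1.2 = y.1.1 →
    ((x.1.1, y.1.2), (x.2 + y.2) % (c.1 + 1)) ∈ c.2.2) ∧
  (∀ p ∈ c.2.1, ∀ t ∈ succ i p, t.1 = 2 → ((p, t.2), c.1) ∈ c.2.2) ∧
  (∀ p ∈ c.2.1, ∀ t ∈ succ i p, 3 ≤ t.1 → ((p, t.2), 0) ∈ c.2.2) ∧
  (∀ p ∈ c.2.1, ∀ t ∈ succ i p, t.1 = 0 → ∀ x ∈ c.2.2, x.1.1 = t.2 →
    ∀ t' ∈ succ i x.1.2, t'.1 = 0 → ((p, t'.2), (x.2 + 1) % (c.1 + 1)) ∈ c.2.2) ∧
  (∀ p ∈ c.2.1, ∀ t ∈ succ i p, t.1 = 1 → ∀ x ∈ c.2.2, x.1.1 = t.2 →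
    ∀ t' ∈ succ i x.1.2, t'.1 = 1 → ∀ y ∈ c.2.2, y.1.1 = t'.2 →
    ∀ t'' ∈ succ i y.1.2, t''.1 = 1 →
      ((p, t''.2), (x.2 + y.2 + 1) % (c.1 + 1)) ∈ c.2.2) ∧
  ((start, fin), 0) ∉ c.2.2

section soundness

variable {i : Inp} {c : Cert}

/-- table entries with weights in `ZMod m` -/
def Ent (c : Cert) (p q : Q) (k : ZMod (c.1 + 1)) : Prop := ((p, q), k.val) ∈ c.2.2

/-- the code of a stack letter -/
def code : Bool → ℕ
  | true => 0
  | false => 1

def Inv (i : Inp) (c : Cert) : List Bool → Q → ZMod (c.1 + 1) → Prop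
  | [], p, k => Ent c p fin k
  | l :: s, p, k => ∃ e e' : Q, ∃ k1 k2 : ZMod (c.1 + 1),
      Ent c p e k1 ∧ (code l, e') ∈ succ i e ∧ Inv i c s e' k2 ∧ k = k1 + k2

theorem Ent.trans (hc : Good i c) {p q r : Q} {k l : ZMod (c.1 + 1)} (h : Ent c p q k)
    (h' : Ent c q r l) : Ent c p r (k + l) := by
  have h1 := hc.2.2.2.1 _ h _ h' rfl
  unfold Ent
  rw [ZMod.val_add]
  exact h1

theorem Inv.left (hc : Good i c) {s : List Bool} {p q : Q} {k l : ZMod (c.1 + 1)}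
    (h : Ent c p q k) (h' : Inv i c s q l) : Inv i c s p (k + l) := by
  rcases s with _ | ⟨a, s⟩
  · exact h.trans hc h'
  · obtain ⟨e, e', k1, k2, h1, h2, h3, rfl⟩ := h'
    exact ⟨e, e', k + k1, k2, h.trans hc h1, h2, h3, by ring⟩

theorem val_one' (n : ℕ) (k : ZMod (n + 1)) : (k + 1).val = (k.val + 1) % (n + 1) := by
  rw [ZMod.val_add]
  rcases n with _ | n
  · simp [Nat.mod_one]
  · haveI : Fact (1 < n + 1 + 1) := ⟨by omega⟩
    rw [ZMod.val_one]

theorem val_add_one' (n : ℕ) (k l : ZMod (n + 1)) :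
    (k + l + 1).val = (k.val + l.val + 1) % (n + 1) := by
  rw [val_one', ZMod.val_add, Nat.mod_add_mod]

/-- the invariant of the machine along a path -/
theorem inv_of_path (hc : Good i c) {p q : Q} {w : List ℕ} (h : Path i p w q) (hq : q = fin)
    (hp : p ∈ c.2.1) :
    Inv i c (run (· + 1) (· - 1) (0 : ZMod (c.1 + 1)) w).2 p
      (run (· + 1) (· - 1) (0 : ZMod (c.1 + 1)) w).1 := by
  induction h with
  | nil p =>
    subst hq
    change Ent c fin fin 0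
    unfold Ent
    rw [ZMod.val_zero]
    exact hc.2.2.1 _ hp
  | @cons p p' q l w h _ ih =>
    have hp' : p' ∈ c.2.1 := hc.2.1 p hp _ h
    have ih := ih hq hp'
    have e2 : run (· + 1) (· - 1) (0 : ZMod (c.1 + 1)) (l :: w) =
      stp (· + 1) (· - 1) l (run (· + 1) (· - 1) (0 : ZMod (c.1 + 1)) w) := rfl
    rw [e2]
    generalize run (· + 1) (· - 1) (0 : ZMod (c.1 + 1)) w = st at ih ⊢
    obtain ⟨k, s⟩ := st
    simp only at ih
    have hpp : Ent c p p 0 := by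
      unfold Ent
      rw [ZMod.val_zero]
      exact hc.2.2.1 _ hp
    match l, h with
    | 0, h =>
      simp only [stp, if_true]
      split_ifs with h1
      · rcases s with _ | ⟨a, s⟩
        · simp at h1
        · simp only [List.head?_cons, Option.some.injEq] at h1
          subst h1
          obtain ⟨e, e', k1, k2, h3, h4, h5, rfl⟩ := ih
          have h6 : Ent c p e' (k1 + 1) := by
            unfold Ent
            rw [val_one']
            exact hc.2.2.2.2.2.2.1 p hp _ h rfl _ h3 rfl _ h4 rfl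
          have h7 := Inv.left hc h6 h5
          have e3 : k1 + 1 + k2 = k1 + k2 + 1 := by ring
          rw [e3] at h7
          exact h7
      · exact ⟨p, p', 0, k, hpp, h, ih, by ring⟩
    | 1, h =>
      simp only [stp, one_ne_zero, if_false, if_true]
      split_ifs with h1
      · rcases s with _ | ⟨a, s⟩
        · simp at h1
        · rcases s with _ | ⟨b, s⟩
          · simp at h1
          · simp only [List.head?_cons, Option.some.injEq, List.tail_cons] at h1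
            obtain ⟨rfl, rfl⟩ := h1
            obtain ⟨e, e', k1, k2, h3, h4, ⟨e1, e1', k3, k4, h5, h6, h7, rfl⟩, rfl⟩ := ih
            have h8 : Ent c p e1' (k1 + k3 + 1) := by
              unfold Ent
              rw [val_add_one']
              exact hc.2.2.2.2.2.2.2.1 p hp _ h rfl _ h3 rfl _ h4 rfl _ h5 rfl _ h6 rfl
            have h9 := Inv.left hc h8 h7
            have e3 : k1 + k3 + 1 + k4 = k1 + (k3 + k4) + 1 := by ring
            rw [e3] at h9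
            exact h9
      · exact ⟨p, p', 0, k, hpp, h, ih, by ring⟩
    | 2, h =>
      have e3 : stp (· + 1) (· - 1) 2 (k, s) = (k - 1, s) := by simp [stp]
      rw [e3]
      have h6 : Ent c p p' (-1) := by
        unfold Ent
        rw [ZMod.val_neg_one]
        exact hc.2.2.2.2.1 p hp _ h rfl
      have h7 := Inv.left hc h6 ih
      have e4 : -1 + k = k - 1 := by ring
      rw [e4] at h7
      exact h7
    | n + 3, h =>
      have e3 : stp (· + 1) (· - 1) (n + 3) (k, s) = (k, s) := by simp [stp]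
      rw [e3]
      have h6 : Ent c p p' 0 := by
        unfold Ent
        rw [ZMod.val_zero]
        exact hc.2.2.2.2.2.1 p hp _ h (by simp)
      have h7 := Inv.left hc h6 ih
      rw [zero_add] at h7
      exact h7

/-- a good table excludes trivial paths -/
theorem Good.not_path (hc : Good i c) {w : List ℕ} (h : Path i start w fin) : tval w ≠ 1 := by
  intro h1
  have h2 := run_of_tval_eq_one (M := ZMod (c.1 + 1)) 1 h1
  have h3 := inv_of_path hc h rfl hc.1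
  rw [h2] at h3
  have h4 : Ent c start fin 0 := h3
  unfold Ent at h4
  rw [ZMod.val_zero] at h4
  exact hc.2.2.2.2.2.2.2.2 h4

end soundness

section completeness

/-- all states -/
def states (i : Inp) : List Q :=
  ((0, []) :: (i.1.1.flatMap List.tails).map (fun u => (0, u))) ++
    (i.2.1.tails.map (fun u => (1, u)) ++
      (((2, []) :: (i.1.2.flatMap List.tails).map (fun u => (2, u))) ++
        i.2.2.tails.map (fun u => (3, u))))

theorem mem_states (i : Inp) (n : ℕ) (u : List ℕ) :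
    (n, u) ∈ states i ↔ (n = 0 ∧ (u = [] ∨ ∃ a ∈ i.1.1, u <:+ a)) ∨ (n = 1 ∧ u <:+ i.2.1) ∨
      (n = 2 ∧ (u = [] ∨ ∃ a ∈ i.1.2, u <:+ a)) ∨ (n = 3 ∧ u <:+ i.2.2) := by
  unfold states
  simp only [List.mem_append, List.mem_cons, List.mem_map, List.mem_flatMap, List.mem_tails,
    Prod.mk.injEq]
  constructor
  · rintro ((⟨rfl, rfl⟩ | ⟨v, hv, rfl, rfl⟩) | ⟨v, hv, rfl, rfl⟩ |
      (⟨rfl, rfl⟩ | ⟨v, hv, rfl, rfl⟩) | ⟨v, hv, rfl, rfl⟩)
    · exact Or.inl ⟨rfl, Or.inl rfl⟩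
    · exact Or.inl ⟨rfl, Or.inr hv⟩
    · exact Or.inr (Or.inl ⟨rfl, hv⟩)
    · exact Or.inr (Or.inr (Or.inl ⟨rfl, Or.inl rfl⟩))
    · exact Or.inr (Or.inr (Or.inl ⟨rfl, Or.inr hv⟩))
    · exact Or.inr (Or.inr (Or.inr ⟨rfl, hv⟩))
  · rintro (⟨rfl, (rfl | hv)⟩ | ⟨rfl, hv⟩ | ⟨rfl, (rfl | hv)⟩ | ⟨rfl, hv⟩)
    · exact Or.inl (Or.inl ⟨rfl, rfl⟩)
    · exact Or.inl (Or.inr ⟨u, hv, rfl, rfl⟩)
    · exact Or.inr (Or.inl ⟨u, hv, rfl, rfl⟩)
    · exact Or.inr (Or.inr (Or.inl (Or.inl ⟨rfl, rfl⟩)))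
    · exact Or.inr (Or.inr (Or.inl (Or.inr ⟨u, hv, rfl, rfl⟩)))
    · exact Or.inr (Or.inr (Or.inr ⟨u, hv, rfl, rfl⟩))

theorem succ_states {i : Inp} {p : Q} (hp : p ∈ states i) {t : ℕ × Q} (ht : t ∈ succ i p) :
    t.2 ∈ states i := by
  obtain ⟨n, u⟩ := p
  obtain ⟨l, n', u'⟩ := t
  rcases u with _ | ⟨b, u⟩
  · simp only [succ, if_true] at ht
    split_ifs at ht with h0 h1 h2
    · simp only [List.mem_cons, List.mem_map, Prod.mk.injEq] at ht
      rw [mem_states]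
      rcases ht with ⟨-, rfl, rfl⟩ | ⟨a, ha, -, rfl, rfl⟩
      · exact Or.inr (Or.inl ⟨rfl, List.suffix_refl _⟩)
      · exact Or.inl ⟨rfl, Or.inr ⟨a, ha, List.suffix_refl _⟩⟩
    · simp only [List.mem_singleton, Prod.mk.injEq] at ht
      rw [mem_states]
      obtain ⟨-, rfl, rfl⟩ := ht
      exact Or.inr (Or.inr (Or.inl ⟨rfl, Or.inl rfl⟩))
    · simp only [List.mem_cons, List.mem_map, Prod.mk.injEq] at ht
      rw [mem_states]
      rcases ht with ⟨-, rfl, rfl⟩ | ⟨a, ha, -, rfl, rfl⟩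
      · exact Or.inr (Or.inr (Or.inr ⟨rfl, List.suffix_refl _⟩))
      · exact Or.inr (Or.inr (Or.inl ⟨rfl, Or.inr ⟨a, ha, List.suffix_refl _⟩⟩))
    · simp at ht
  · have h' : (l, (n', u')) = (b, (n, u)) := by simpa [succ] using ht
    simp only [Prod.mk.injEq] at h'
    obtain ⟨rfl, rfl, rfl⟩ := h'
    rw [mem_states] at hp ⊢
    have hs : ∀ v : List ℕ, (l :: u') <:+ v → u' <:+ v := fun v hv =>
      (List.suffix_cons l u').trans hv
    rcases hp with ⟨h1, h2⟩ | ⟨h1, h2⟩ | ⟨h1, h2⟩ | ⟨h1, h2⟩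
    · rcases h2 with h2 | ⟨a, ha, h2⟩
      · simp at h2
      · exact Or.inl ⟨h1, Or.inr ⟨a, ha, hs _ h2⟩⟩
    · exact Or.inr (Or.inl ⟨h1, hs _ h2⟩)
    · rcases h2 with h2 | ⟨a, ha, h2⟩
      · simp at h2
      · exact Or.inr (Or.inr (Or.inl ⟨h1, Or.inr ⟨a, ha, hs _ h2⟩⟩))
    · exact Or.inr (Or.inr (Or.inr ⟨h1, hs _ h2⟩))

/-- reachability modulo `Z^m` -/
def Rch (i : Inp) (m : ℕ) (p q : Q) (k : ℕ) : Prop :=
  ∃ w, Path i p w q ∧ ∃ j : ℤ, tval w = Z ^ j ∧ (j : ZMod m) = (k : ZMod m)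

/-- if no path spells a power of `Z^m`, then there is a good table -/
theorem exists_good {i : Inp} {m : ℕ} (hm : 0 < m)
    (h : ∀ w, Path i start w fin → ∀ j : ℤ, tval w = Z ^ j → ¬ ((m : ℤ) ∣ j)) :
    ∃ c : Cert, Good i c := by
  classical
  obtain ⟨n, rfl⟩ : ∃ n, m = n + 1 := ⟨m - 1, by omega⟩
  obtain ⟨T, hT⟩ : ∃ T : List Row, ∀ x : Row, x ∈ T ↔
      (x.1.1 ∈ states i ∧ x.1.2 ∈ states i) ∧ x.2 < n + 1 ∧ Rch i (n + 1) x.1.1 x.1.2 x.2 := by
    refine ⟨(((states i) ×ˢ (states i)) ×ˢ List.range (n + 1)).filter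
      (fun x => decide (Rch i (n + 1) x.1.1 x.1.2 x.2)), ?_⟩
    intro x
    simp only [List.mem_filter, decide_eq_true_eq, and_assoc]
    obtain ⟨⟨p, q⟩, k⟩ := x
    simp only [List.mem_product, List.mem_range, and_assoc]
  refine ⟨(n, (states i, T)), ?_, ?_, ?_, ?_, ?_, ?_, ?_, ?_, ?_⟩
  · exact (mem_states i 0 []).2 (Or.inl ⟨rfl, Or.inl rfl⟩)
  · intro p hp t ht
    exact succ_states hp ht
  · intro p hp
    simp only at hp ⊢
    rw [hT]
    exact ⟨⟨hp, hp⟩, Nat.succ_pos _, [], Path.nil _, 0, by simp [tval], by simp⟩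
  · intro x hx y hy hxy
    simp only at hx hy ⊢
    rw [hT] at hx hy ⊢
    obtain ⟨⟨hx1, hx2⟩, -, w, hw, j, hj, hj'⟩ := hx
    obtain ⟨⟨hy1, hy2⟩, -, v, hv, l, hl, hl'⟩ := hy
    refine ⟨⟨hx1, hy2⟩, Nat.mod_lt _ (Nat.succ_pos _), w ++ v, ?_, j + l, ?_, ?_⟩
    · rw [← hxy] at hv
      exact hw.trans hv
    · rw [tval_append, hj, hl, zpow_add]
    · rw [ZMod.natCast_mod]
      push_cast
      rw [hj', hl']
  · intro p hp t ht h2
    simp only at hp ⊢
    rw [hT]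
    obtain ⟨l, q⟩ := t
    simp only at h2
    subst h2
    refine ⟨⟨hp, succ_states hp ht⟩, Nat.lt_succ_self n, [2], Path.single ht, -1, ?_, ?_⟩
    · simp [tval, tv]
    · have : ((n + 1 : ℕ) : ZMod (n + 1)) = 0 := ZMod.natCast_self _
      push_cast at this ⊢
      linear_combination -this
  · intro p hp t ht h2
    simp only at hp ⊢
    rw [hT]
    obtain ⟨l, q⟩ := t
    simp only at h2
    refine ⟨⟨hp, succ_states hp ht⟩, Nat.succ_pos _, [l], Path.single ht, 0, ?_, by simp⟩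
    obtain ⟨l', rfl⟩ : ∃ l', l = l' + 3 := ⟨l - 3, by omega⟩
    simp [tval, tv]
  · intro p hp t ht h2 x hx hx1 t' ht' h3
    simp only at hp hx ⊢
    rw [hT] at hx ⊢
    obtain ⟨l, q⟩ := t
    obtain ⟨l', q'⟩ := t'
    simp only at h2 h3 hx1
    subst h2
    subst h3
    subst hx1
    obtain ⟨⟨hx1, hx2⟩, -, w, hw, j, hj, hj'⟩ := hx
    refine ⟨⟨hp, succ_states hx2 ht'⟩, Nat.mod_lt _ (Nat.succ_pos _), 0 :: (w ++ [0]),
      Path.cons ht (hw.trans (Path.single ht')), j + 1, ?_, ?_⟩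
    · rw [tval_cons, tval_append, hj]
      have e1 : tv 0 = X := rfl
      have e2 : tval [0] = X := by simp [tval, tv]
      rw [e1, e2, ← mul_assoc, ← Zz_comm, zpow_add, zpow_one, Z, mul_assoc]
    · rw [ZMod.natCast_mod]
      push_cast
      rw [hj']
  · intro p hp t ht h2 x hx hx1 t' ht' h3 y hy hy1 t'' ht'' h4
    simp only at hp hx hy ⊢
    rw [hT] at hx hy ⊢
    obtain ⟨l, q⟩ := t
    obtain ⟨l', q'⟩ := t'
    obtain ⟨l'', q''⟩ := t''
    simp only at h2 h3 h4 hx1 hy1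
    subst h2
    subst h3
    subst h4
    subst hx1
    subst hy1
    obtain ⟨⟨hx1, hx2⟩, -, w, hw, j, hj, hj'⟩ := hx
    obtain ⟨⟨hy1, hy2⟩, -, v, hv, k, hk, hk'⟩ := hy
    refine ⟨⟨hp, succ_states hy2 ht''⟩, Nat.mod_lt _ (Nat.succ_pos _),
      1 :: (w ++ (1 :: (v ++ [1]))),
      Path.cons ht (hw.trans (Path.cons ht' (hv.trans (Path.single ht'')))), j + k + 1, ?_, ?_⟩
    · rw [tval_cons, tval_append, tval_cons, tval_append, hj, hk]
      have e1 : tv 1 = Y := rfl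
      have e2 : tval [1] = Y := by simp [tval, tv]
      rw [e1, e2]
      have e3 : Y * (Z ^ k * Y) = Z ^ k * (Y * Y) := by
        rw [← mul_assoc, ← Zz_comm, mul_assoc]
      rw [e3, ← mul_assoc, ← Zz_comm]
      have e4 : Z ^ j * Y * (Z ^ k * (Y * Y)) = Z ^ j * Z ^ k * (Y * Y * Y) := by
        rw [mul_assoc (Z ^ j), ← mul_assoc Y, ← Zz_comm]
        simp only [mul_assoc]
      rw [e4, Y3, zpow_add, zpow_add, zpow_one]
    · rw [ZMod.natCast_mod]
      push_cast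
      rw [hj', hk']
  · simp only
    rw [hT]
    rintro ⟨-, -, w, hw, j, hj, hj'⟩
    refine h w hw j hj ?_
    simp only [Nat.cast_zero] at hj'
    rw [ZMod.intCast_zmod_eq_zero_iff_dvd] at hj'
    exact hj'

end completeness

/-- **Certificates.** -/
theorem cert_iff {i : Inp} (hA : InvC i.1.1) (hB : InvC i.1.2) :
    (∃ c : Cert, Good i c) ↔
      ¬ ∃ a ∈ tsub i.1.1, ∃ b ∈ tsub i.1.2, a * tval i.2.1 * b * tval i.2.2 = 1 := by
  constructor
  · rintro ⟨c, hc⟩ ⟨a, ha, b, hb, h⟩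
    obtain ⟨w, hw, h1⟩ := exists_path hA hB ha hb
    exact hc.not_path hw (h1.trans h)
  · intro h
    obtain ⟨m, hm, h1⟩ := exists_modulus
      {k : ℤ | ∃ a ∈ tsub i.1.1, ∃ b ∈ tsub i.1.2, a * tval i.2.1 * b * tval i.2.2 = Z ^ k}
      (by
        rintro k ⟨a1, ha1, b1, hb1, h1⟩ l ⟨a2, ha2, b2, hb2, h2⟩ n ⟨a3, ha3, b3, hb3, h3⟩
        exact heap _ _ _ _ ha1 ha2 ha3 hb1 hb2 hb3 h1 h2 h3)
      (by
        rintro ⟨a, ha, b, hb, h1⟩
        exact h ⟨a, ha, b, hb, by rw [h1, zpow_zero]⟩)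
    refine exists_good hm ?_
    intro w hw j hj
    obtain ⟨a, ha, b, hb, h2⟩ := (tgt_of_path hw rfl).1 rfl
    refine h1 j ⟨a, ha, b, hb, ?_⟩
    rw [← hj, h2, tval_nil, one_mul]

end Pool.Agent.helper76.DC
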