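import Pool.Agent.helper76.DC.Cert

/-!
# Computability of the checks
-/

set_option autoImplicit false

namespace Pool.Agent.helper76.DC

section general

variable {α β : Type} [Primcodable α] [Primcodable β]

/-- bounded quantifier -/
theorem all_mem {f : α → List β} {R : α → β → Prop} (hf : Primrec f)
    (hR : PrimrecPred fun x : α × β => R x.1 x.2) : PrimrecPred fun a => ∀ b ∈ f a, R a b := by
  have h1 : PrimrecRel (fun (b : β) (a : α) => R a b) :=
    PrimrecPred.comp (f := fun x : β × α => (x.2, x.1)) hR (Primrec.pair Primrec.snd Primrec.fst)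
  exact h1.forall_mem_list.comp hf Primrec.id

theorem ex_mem {f : α → List β} {R : α → β → Prop} (hf : Primrec f)
    (hR : PrimrecPred fun x : α × β => R x.1 x.2) : PrimrecPred fun a => ∃ b ∈ f a, R a b := by
  have h1 : PrimrecRel (fun (b : β) (a : α) => R a b) :=
    PrimrecPred.comp (f := fun x : β × α => (x.2, x.1)) hR (Primrec.pair Primrec.snd Primrec.fst)
  exact h1.exists_mem_list.comp hf Primrec.id

theorem mem_pred {f : α → β} {g : α → List β} (hf : Primrec f) (hg : Primrec g) :
    PrimrecPred fun a => f a ∈ g a := by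
  have h1 : PrimrecPred fun a => ∃ b ∈ g a, b = f a :=
    ex_mem hg (Primrec.eq.comp Primrec.snd (hf.comp Primrec.fst))
  exact h1.of_eq (fun a => by simp)

theorem imp_pred {p q : α → Prop} (hp : PrimrecPred p) (hq : PrimrecPred q) :
    PrimrecPred fun a => p a → q a :=
  (hp.not.or hq).of_eq (fun a => by tauto)

/-- projections of a decidable relation are recursively enumerable -/
theorem re_exists {R : α → β → Prop} (hR : PrimrecPred fun x : α × β => R x.1 x.2) :
    REPred fun a => ∃ b, R a b := by
  classical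
  have hf : Computable₂ fun (a : α) (n : ℕ) =>
      (Encodable.decode (α := β) n).bind (fun b => if R a b then some () else none) := by
    refine Computable.option_bind (Computable.decode.comp Computable.snd) ?_
    refine Primrec.to_comp ?_
    refine Primrec.ite ?_ (Primrec.const _) (Primrec.const _)
    exact PrimrecPred.comp (f := fun x : (α × ℕ) × β => (x.1.1, x.2)) hR
      (Primrec.pair (Primrec.fst.comp Primrec.fst) Primrec.snd)
  refine (Partrec.dom_re (Partrec.rfindOpt hf)).of_eq ?_
  intro a
  rw [Nat.rfindOpt_dom]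
  constructor
  · rintro ⟨n, u, hu⟩
    rw [Option.mem_def, Option.bind_eq_some_iff] at hu
    obtain ⟨b, -, hb⟩ := hu
    refine ⟨b, ?_⟩
    by_contra h
    simp [h] at hb
  · rintro ⟨b, hb⟩
    refine ⟨Encodable.encode b, (), ?_⟩
    simp [hb]

end general

theorem succ_prim : Primrec fun x : Inp × Q => succ x.1 x.2 := by
  unfold succ
  have h0 : Primrec fun x : Inp × Q => x.2.1 := Primrec.fst.comp Primrec.snd
  have h1 : Primrec fun x : Inp × Q => x.2.2 := Primrec.snd.comp Primrec.snd
  have hh : Primrec fun x : Inp × Q => x.1.2.1 :=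
    Primrec.fst.comp (Primrec.snd.comp Primrec.fst)
  have hg : Primrec fun x : Inp × Q => x.1.2.2 :=
    Primrec.snd.comp (Primrec.snd.comp Primrec.fst)
  have hA : Primrec fun x : Inp × Q => x.1.1.1 :=
    Primrec.fst.comp (Primrec.fst.comp Primrec.fst)
  have hB : Primrec fun x : Inp × Q => x.1.1.2 :=
    Primrec.snd.comp (Primrec.fst.comp Primrec.fst)
  refine Primrec.ite (Primrec.eq.comp h1 (Primrec.const [])) ?_ ?_
  · refine Primrec.ite (Primrec.eq.comp h0 (Primrec.const 0)) ?_ ?_
    · refine Primrec.list_cons.comp ?_ ?_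
      · exact Primrec.pair (Primrec.const 3) (Primrec.pair (Primrec.const 1) hh)
      · refine Primrec.list_map hA ?_
        exact Primrec.pair (Primrec.const 3) (Primrec.pair (Primrec.const 0) Primrec.snd)
    · refine Primrec.ite (Primrec.eq.comp h0 (Primrec.const 1)) (Primrec.const _) ?_
      refine Primrec.ite (Primrec.eq.comp h0 (Primrec.const 2)) ?_ (Primrec.const _)
      refine Primrec.list_cons.comp ?_ ?_
      · exact Primrec.pair (Primrec.const 3) (Primrec.pair (Primrec.const 3) hg)
      · refine Primrec.list_map hB ?_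
        exact Primrec.pair (Primrec.const 3) (Primrec.pair (Primrec.const 2) Primrec.snd)
  · refine Primrec.list_cons.comp ?_ (Primrec.const [])
    exact Primrec.pair (Primrec.list_headI.comp h1) (Primrec.pair h0 (Primrec.list_tail.comp h1))

section good

variable {γ : Type} [Primcodable γ]

theorem succ_comp {f : γ → Inp} {g : γ → Q} (hf : Primrec f) (hg : Primrec g) :
    Primrec fun x => succ (f x) (g x) := succ_prim.comp (Primrec.pair hf hg)

/-- `(a + b) % (n + 1)` -/
theorem add_mod_prim {a b n : γ → ℕ} (ha : Primrec a) (hb : Primrec b) (hn : Primrec n) :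
    Primrec fun x => (a x + b x) % (n x + 1) :=
  Primrec.nat_mod.comp (Primrec.nat_add.comp ha hb) (Primrec.succ.comp hn)

end good

theorem good_prim : PrimrecPred fun x : Inp × Cert => Good x.1 x.2 := by
  unfold Good
  have hi : Primrec fun x : Inp × Cert => x.1 := Primrec.fst
  have hn : Primrec fun x : Inp × Cert => x.2.1 := Primrec.fst.comp Primrec.snd
  have hQ : Primrec fun x : Inp × Cert => x.2.2.1 :=
    Primrec.fst.comp (Primrec.snd.comp Primrec.snd)
  have hT : Primrec fun x : Inp × Cert => x.2.2.2 :=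
    Primrec.snd.comp (Primrec.snd.comp Primrec.snd)
  refine PrimrecPred.and (mem_pred (Primrec.const _) hQ) ?_
  refine PrimrecPred.and ?_ ?_
  · refine all_mem hQ (all_mem (succ_comp (hi.comp Primrec.fst) Primrec.snd) ?_)
    exact mem_pred (Primrec.snd.comp Primrec.snd) (hQ.comp (Primrec.fst.comp Primrec.fst))
  refine PrimrecPred.and ?_ ?_
  · refine all_mem hQ (mem_pred ?_ (hT.comp Primrec.fst))
    exact Primrec.pair (Primrec.pair Primrec.snd Primrec.snd) (Primrec.const 0)
  refine PrimrecPred.and ?_ ?_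
  · refine all_mem hT (all_mem (hT.comp Primrec.fst) ?_)
    have hx : Primrec fun z : ((Inp × Cert) × Row) × Row => z.1.2 :=
      Primrec.snd.comp Primrec.fst
    have hy : Primrec fun z : ((Inp × Cert) × Row) × Row => z.2 := Primrec.snd
    have he : Primrec fun z : ((Inp × Cert) × Row) × Row => z.1.1 :=
      Primrec.fst.comp Primrec.fst
    refine imp_pred ?_ (mem_pred ?_ (hT.comp he))
    · exact Primrec.eq.comp (Primrec.snd.comp (Primrec.fst.comp hx))
        (Primrec.fst.comp (Primrec.fst.comp hy))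
    · exact Primrec.pair (Primrec.pair (Primrec.fst.comp (Primrec.fst.comp hx))
        (Primrec.snd.comp (Primrec.fst.comp hy)))
        (add_mod_prim (Primrec.snd.comp hx) (Primrec.snd.comp hy) (hn.comp he))
  refine PrimrecPred.and ?_ ?_
  · refine all_mem hQ (all_mem (succ_comp (hi.comp Primrec.fst) Primrec.snd) ?_)
    have he : Primrec fun z : ((Inp × Cert) × Q) × (ℕ × Q) => z.1.1 :=
      Primrec.fst.comp Primrec.fst
    have hp : Primrec fun z : ((Inp × Cert) × Q) × (ℕ × Q) => z.1.2 :=
      Primrec.snd.comp Primrec.fst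
    have ht : Primrec fun z : ((Inp × Cert) × Q) × (ℕ × Q) => z.2 := Primrec.snd
    refine imp_pred (Primrec.eq.comp (Primrec.fst.comp ht) (Primrec.const 2))
      (mem_pred ?_ (hT.comp he))
    exact Primrec.pair (Primrec.pair hp (Primrec.snd.comp ht)) (hn.comp he)
  refine PrimrecPred.and ?_ ?_
  · refine all_mem hQ (all_mem (succ_comp (hi.comp Primrec.fst) Primrec.snd) ?_)
    have he : Primrec fun z : ((Inp × Cert) × Q) × (ℕ × Q) => z.1.1 :=
      Primrec.fst.comp Primrec.fst
    have hp : Primrec fun z : ((Inp × Cert) × Q) × (ℕ × Q) => z.1.2 :=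
      Primrec.snd.comp Primrec.fst
    have ht : Primrec fun z : ((Inp × Cert) × Q) × (ℕ × Q) => z.2 := Primrec.snd
    refine imp_pred (Primrec.nat_le.comp (Primrec.const 3) (Primrec.fst.comp ht))
      (mem_pred ?_ (hT.comp he))
    exact Primrec.pair (Primrec.pair hp (Primrec.snd.comp ht)) (Primrec.const 0)
  refine PrimrecPred.and ?_ ?_
  · refine all_mem hQ (all_mem (succ_comp (hi.comp Primrec.fst) Primrec.snd) ?_)
    have he : Primrec fun z : ((Inp × Cert) × Q) × (ℕ × Q) => z.1.1 :=
      Primrec.fst.comp Primrec.fst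
    have hp : Primrec fun z : ((Inp × Cert) × Q) × (ℕ × Q) => z.1.2 :=
      Primrec.snd.comp Primrec.fst
    have ht : Primrec fun z : ((Inp × Cert) × Q) × (ℕ × Q) => z.2 := Primrec.snd
    refine imp_pred (Primrec.eq.comp (Primrec.fst.comp ht) (Primrec.const 0))
      (all_mem (hT.comp he) ?_)
    have hx : Primrec fun z : (((Inp × Cert) × Q) × (ℕ × Q)) × Row => z.2 := Primrec.snd
    refine imp_pred (Primrec.eq.comp (Primrec.fst.comp (Primrec.fst.comp hx))
      ((Primrec.snd.comp ht).comp Primrec.fst)) ?_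
    refine all_mem (succ_comp (hi.comp (he.comp Primrec.fst))
      (Primrec.snd.comp (Primrec.fst.comp hx))) ?_
    have ht' : Primrec fun z : ((((Inp × Cert) × Q) × (ℕ × Q)) × Row) × (ℕ × Q) => z.2 :=
      Primrec.snd
    refine imp_pred (Primrec.eq.comp (Primrec.fst.comp ht') (Primrec.const 0)) ?_
    refine mem_pred ?_ (hT.comp (he.comp (Primrec.fst.comp Primrec.fst)))
    exact Primrec.pair (Primrec.pair (hp.comp (Primrec.fst.comp Primrec.fst))
      (Primrec.snd.comp ht')) (add_mod_prim (Primrec.snd.comp (hx.comp Primrec.fst))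
        (Primrec.const 1) (hn.comp (he.comp (Primrec.fst.comp Primrec.fst))))
  refine PrimrecPred.and ?_ ?_
  · refine all_mem hQ (all_mem (succ_comp (hi.comp Primrec.fst) Primrec.snd) ?_)
    have he : Primrec fun z : ((Inp × Cert) × Q) × (ℕ × Q) => z.1.1 :=
      Primrec.fst.comp Primrec.fst
    have hp : Primrec fun z : ((Inp × Cert) × Q) × (ℕ × Q) => z.1.2 :=
      Primrec.snd.comp Primrec.fst
    have ht : Primrec fun z : ((Inp × Cert) × Q) × (ℕ × Q) => z.2 := Primrec.snd
    refine imp_pred (Primrec.eq.comp (Primrec.fst.comp ht) (Primrec.const 1))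
      (all_mem (hT.comp he) ?_)
    have hx : Primrec fun z : (((Inp × Cert) × Q) × (ℕ × Q)) × Row => z.2 := Primrec.snd
    refine imp_pred (Primrec.eq.comp (Primrec.fst.comp (Primrec.fst.comp hx))
      ((Primrec.snd.comp ht).comp Primrec.fst)) ?_
    refine all_mem (succ_comp (hi.comp (he.comp Primrec.fst))
      (Primrec.snd.comp (Primrec.fst.comp hx))) ?_
    have ht' : Primrec fun z : ((((Inp × Cert) × Q) × (ℕ × Q)) × Row) × (ℕ × Q) => z.2 :=
      Primrec.snd
    have he' : Primrec fun z : ((((Inp × Cert) × Q) × (ℕ × Q)) × Row) × (ℕ × Q) =>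
        z.1.1.1.1 := he.comp (Primrec.fst.comp Primrec.fst)
    have hp' : Primrec fun z : ((((Inp × Cert) × Q) × (ℕ × Q)) × Row) × (ℕ × Q) =>
        z.1.1.1.2 := hp.comp (Primrec.fst.comp Primrec.fst)
    have hx' : Primrec fun z : ((((Inp × Cert) × Q) × (ℕ × Q)) × Row) × (ℕ × Q) =>
        z.1.2 := hx.comp Primrec.fst
    refine imp_pred (Primrec.eq.comp (Primrec.fst.comp ht') (Primrec.const 1)) ?_
    refine all_mem (hT.comp he') ?_
    have hy : Primrec fun z :
        (((((Inp × Cert) × Q) × (ℕ × Q)) × Row) × (ℕ × Q)) × Row => z.2 := Primrec.snd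
    refine imp_pred (Primrec.eq.comp (Primrec.fst.comp (Primrec.fst.comp hy))
      ((Primrec.snd.comp ht').comp Primrec.fst)) ?_
    refine all_mem (succ_comp (hi.comp (he'.comp Primrec.fst))
      (Primrec.snd.comp (Primrec.fst.comp hy))) ?_
    have ht'' : Primrec fun z :
        ((((((Inp × Cert) × Q) × (ℕ × Q)) × Row) × (ℕ × Q)) × Row) × (ℕ × Q) => z.2 :=
      Primrec.snd
    refine imp_pred (Primrec.eq.comp (Primrec.fst.comp ht'') (Primrec.const 1)) ?_
    refine mem_pred ?_ (hT.comp (he'.comp (Primrec.fst.comp Primrec.fst)))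
    refine Primrec.pair (Primrec.pair (hp'.comp (Primrec.fst.comp Primrec.fst))
      (Primrec.snd.comp ht'')) ?_
    exact add_mod_prim (Primrec.nat_add.comp
      (Primrec.snd.comp (hx'.comp (Primrec.fst.comp Primrec.fst)))
      (Primrec.snd.comp (hy.comp Primrec.fst))) (Primrec.const 1)
      (hn.comp (he'.comp (Primrec.fst.comp Primrec.fst)))
  · exact (mem_pred (Primrec.const _) hT).not

/-! ### the machine -/

abbrev NSt := (ℕ × ℕ) × List Bool

theorem stp_prim : Primrec fun x : ℕ × NSt =>
    stp (fun p : ℕ × ℕ => (p.1 + 1, p.2)) (fun p : ℕ × ℕ => (p.1, p.2 + 1)) x.1 x.2 := by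
  unfold stp
  have hl : Primrec fun x : ℕ × NSt => x.1 := Primrec.fst
  have hk : Primrec fun x : ℕ × NSt => x.2.1 := Primrec.fst.comp Primrec.snd
  have hs : Primrec fun x : ℕ × NSt => x.2.2 := Primrec.snd.comp Primrec.snd
  have hinc : Primrec fun x : ℕ × NSt => (x.2.1.1 + 1, x.2.1.2) :=
    Primrec.pair (Primrec.succ.comp (Primrec.fst.comp hk)) (Primrec.snd.comp hk)
  have hdec : Primrec fun x : ℕ × NSt => (x.2.1.1, x.2.1.2 + 1) :=
    Primrec.pair (Primrec.fst.comp hk) (Primrec.succ.comp (Primrec.snd.comp hk))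
  have hhd : Primrec fun x : ℕ × NSt => x.2.2.head? := Primrec.list_head?.comp hs
  have htl : Primrec fun x : ℕ × NSt => x.2.2.tail := Primrec.list_tail.comp hs
  have hhd2 : Primrec fun x : ℕ × NSt => x.2.2.tail.head? := Primrec.list_head?.comp htl
  refine Primrec.ite (Primrec.eq.comp hl (Primrec.const 0)) ?_ ?_
  · refine Primrec.ite (Primrec.eq.comp hhd (Primrec.const (some true))) ?_ ?_
    · exact Primrec.pair hinc htl
    · exact Primrec.pair hk (Primrec.list_cons.comp (Primrec.const true) hs)
  · refine Primrec.ite (Primrec.eq.comp hl (Primrec.const 1)) ?_ ?_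
    · refine Primrec.ite (PrimrecPred.and (Primrec.eq.comp hhd (Primrec.const (some false)))
        (Primrec.eq.comp hhd2 (Primrec.const (some false)))) ?_ ?_
      · exact Primrec.pair hinc (Primrec.list_tail.comp htl)
      · exact Primrec.pair hk (Primrec.list_cons.comp (Primrec.const false) hs)
    · refine Primrec.ite (Primrec.eq.comp hl (Primrec.const 2)) ?_ Primrec.snd
      exact Primrec.pair hdec hs

theorem nf_prim : Primrec nf := by
  have h : Primrec fun w : List ℕ => w.foldr
      (fun l st => stp (fun p : ℕ × ℕ => (p.1 + 1, p.2)) (fun p : ℕ × ℕ => (p.1, p.2 + 1)) l st)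
      (((0, 0), []) : NSt) :=
    Primrec.list_foldr (h := fun (_ : List ℕ) (x : ℕ × NSt) =>
      stp (fun p : ℕ × ℕ => (p.1 + 1, p.2)) (fun p : ℕ × ℕ => (p.1, p.2 + 1)) x.1 x.2)
      Primrec.id (Primrec.const _) (stp_prim.comp Primrec.snd)
  exact h

/-- triviality of a token word is primitive recursive -/
theorem triv_prim : PrimrecPred fun w : List ℕ => tval w = 1 := by
  refine PrimrecPred.of_eq (PrimrecPred.and
    (Primrec.eq.comp (Primrec.fst.comp (Primrec.fst.comp nf_prim))
      (Primrec.snd.comp (Primrec.fst.comp nf_prim)))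
    (Primrec.eq.comp (Primrec.snd.comp nf_prim) (Primrec.const []))) ?_
  intro w
  exact (tval_eq_one_iff w).symm

/-- the positive certificate: products of generators -/
def Pos (i : Inp) (c : List (List ℕ) × List (List ℕ)) : Prop :=
  (∀ a ∈ c.1, a ∈ i.1.1) ∧ (∀ b ∈ c.2, b ∈ i.1.2) ∧
    tval (c.1.flatten ++ (i.2.1 ++ (c.2.flatten ++ i.2.2))) = 1

theorem pos_prim : PrimrecPred fun x : Inp × (List (List ℕ) × List (List ℕ)) =>
    Pos x.1 x.2 := by
  unfold Pos
  have hh : Primrec fun x : Inp × (List (List ℕ) × List (List ℕ)) => x.1.2.1 :=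
    Primrec.fst.comp (Primrec.snd.comp Primrec.fst)
  have hg : Primrec fun x : Inp × (List (List ℕ) × List (List ℕ)) => x.1.2.2 :=
    Primrec.snd.comp (Primrec.snd.comp Primrec.fst)
  have hA : Primrec fun x : Inp × (List (List ℕ) × List (List ℕ)) => x.1.1.1 :=
    Primrec.fst.comp (Primrec.fst.comp Primrec.fst)
  have hB : Primrec fun x : Inp × (List (List ℕ) × List (List ℕ)) => x.1.1.2 :=
    Primrec.snd.comp (Primrec.fst.comp Primrec.fst)
  have hu : Primrec fun x : Inp × (List (List ℕ) × List (List ℕ)) => x.2.1 :=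
    Primrec.fst.comp Primrec.snd
  have hv : Primrec fun x : Inp × (List (List ℕ) × List (List ℕ)) => x.2.2 :=
    Primrec.snd.comp Primrec.snd
  refine PrimrecPred.and (all_mem hu (mem_pred Primrec.snd (hA.comp Primrec.fst))) ?_
  refine PrimrecPred.and (all_mem hv (mem_pred Primrec.snd (hB.comp Primrec.fst))) ?_
  refine PrimrecPred.comp triv_prim ?_
  exact Primrec.list_append.comp (Primrec.list_flatten.comp hu)
    (Primrec.list_append.comp hh (Primrec.list_append.comp (Primrec.list_flatten.comp hv) hg))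

end Pool.Agent.helper76.DC
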