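import Mathlib

/-!
# The braid group `B₃` and its normal form machine

Tokens: `0` is `X = σ₁σ₂σ₁`, `1` is `Y = σ₁σ₂`, `2` is `Z⁻¹` with `Z = X² = Y³` (central), all other
numbers are the empty word.
-/

set_option autoImplicit false

namespace Pool.Agent.helper76.DC

/-- words in `σ₁^{±1}, σ₂^{±1}` -/
abbrev Word := List (Fin 2 × Bool)

/-- the braid relation -/
def rels : Set (FreeGroup (Fin 2)) :=
  {FreeGroup.of 0 * FreeGroup.of 1 * FreeGroup.of 0 *
    (FreeGroup.of 1 * FreeGroup.of 0 * FreeGroup.of 1)⁻¹}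

abbrev B3 := PresentedGroup rels

/-- the element of `B₃` given by a word -/
def val (w : Word) : B3 := PresentedGroup.mk rels (FreeGroup.mk w)

/-- the subgroup generated by a list of words -/
def sub (L : List Word) : Subgroup B3 := Subgroup.closure {x | ∃ w ∈ L, val w = x}

theorem val_append (u v : Word) : val (u ++ v) = val u * val v := by
  unfold val
  rw [← map_mul, FreeGroup.mul_mk]

theorem val_nil : val [] = 1 := by
  unfold val
  rw [← FreeGroup.one_eq_mk, map_one]

theorem val_inv (w : Word) : val (FreeGroup.invRev w) = (val w)⁻¹ := by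
  unfold val
  rw [← map_inv, FreeGroup.inv_mk]

theorem val_surj (g : B3) : ∃ w, val w = g := by
  obtain ⟨x, hx⟩ := PresentedGroup.mk_surjective rels g
  refine ⟨x.toWord, ?_⟩
  unfold val
  rw [FreeGroup.mk_toWord, hx]

def s0 : B3 := PresentedGroup.of 0
def s1 : B3 := PresentedGroup.of 1

theorem braid : s0 * s1 * s0 = s1 * s0 * s1 := by
  have h : PresentedGroup.mk rels (FreeGroup.of 0 * FreeGroup.of 1 * FreeGroup.of 0 *
    (FreeGroup.of 1 * FreeGroup.of 0 * FreeGroup.of 1)⁻¹) = 1 := by
    apply PresentedGroup.one_of_mem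
    exact Set.mem_singleton _
  rw [map_mul, map_inv, mul_inv_eq_one] at h
  simp only [map_mul] at h
  exact h

def X : B3 := s0 * s1 * s0
def Y : B3 := s0 * s1
def Z : B3 := X * X

theorem Y3 : Y * Y * Y = Z := by
  have h : Y * Y * Y = s0 * s1 * s0 * (s1 * s0 * s1) := by
    simp only [Y, mul_assoc]
  rw [h, ← braid]
  rfl

theorem s0_eq : s0 = Y⁻¹ * X := by
  simp only [X, Y]
  group

theorem s1_eq : s1 = X⁻¹ * (Y * Y) := by
  rw [eq_inv_mul_iff_mul_eq]
  simp only [X, Y, mul_assoc]

theorem Z_comm (g : B3) : Z * g = g * Z := by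
  have hX : Z * X = X * Z := by simp only [Z, mul_assoc]
  have hY : Z * Y = Y * Z := by rw [← Y3]; simp only [mul_assoc]
  have hmem : g ∈ Subgroup.centralizer {Z} := by
    have h1 : X ∈ Subgroup.centralizer {Z} := by
      rw [Subgroup.mem_centralizer_singleton_iff]
      exact hX.symm
    have h2 : Y ∈ Subgroup.centralizer {Z} := by
      rw [Subgroup.mem_centralizer_singleton_iff]
      exact hY.symm
    refine PresentedGroup.generated_by rels _ ?_ g
    intro j
    fin_cases j
    · change s0 ∈ _
      rw [s0_eq]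
      exact mul_mem (inv_mem h2) h1
    · change s1 ∈ _
      rw [s1_eq]
      exact mul_mem (inv_mem h1) (mul_mem h2 h2)
  rw [Subgroup.mem_centralizer_singleton_iff] at hmem
  exact hmem.symm

theorem Zz_comm (k : ℤ) (g : B3) : Z ^ k * g = g * Z ^ k := by
  have h : Commute Z g := Z_comm g
  exact h.zpow_left k

/-- value of a token -/
def tv : ℕ → B3
  | 0 => X
  | 1 => Y
  | 2 => Z⁻¹
  | _ => 1

/-- value of a token word -/
def tval (w : List ℕ) : B3 := (w.map tv).prod

theorem tval_nil : tval [] = 1 := rfl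

theorem tval_cons (l : ℕ) (w : List ℕ) : tval (l :: w) = tv l * tval w := by
  simp [tval]

theorem tval_append (u v : List ℕ) : tval (u ++ v) = tval u * tval v := by
  simp [tval]

/-- tokens of a letter -/
def tok (a : Fin 2 × Bool) : List ℕ :=
  if a.1 = 0 then (if a.2 = true then [2, 1, 1, 0] else [2, 0, 1])
  else (if a.2 = true then [2, 0, 1, 1] else [2, 1, 0])

/-- tokens of a word -/
def tw (w : Word) : List ℕ := w.flatMap tok

theorem val_true (i : Fin 2) : val [(i, true)] = PresentedGroup.of i := rfl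

theorem val_false (i : Fin 2) : val [(i, false)] = (PresentedGroup.of i)⁻¹ := by
  rw [← val_true, ← val_inv]
  rfl

theorem ZX : Z⁻¹ * X = X⁻¹ := by
  simp only [Z]
  group

theorem ZYY : Z⁻¹ * (Y * Y) = Y⁻¹ := by
  rw [← Y3]
  group

theorem ZY : Z⁻¹ * Y = (Y * Y)⁻¹ := by
  rw [← Y3]
  group

theorem Zi_comm (g : B3) : Z⁻¹ * g = g * Z⁻¹ := by
  have h := Zz_comm (-1) g
  simpa using h

theorem tval_tok (a : Fin 2 × Bool) : tval (tok a) = val [a] := by
  obtain ⟨i, b⟩ := a
  fin_cases i
  · cases b
    · have h1 : tval (tok (0, false)) = Z⁻¹ * (X * (Y * 1)) := rfl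
      have h2 : val [((0 : Fin 2), false)] = s0⁻¹ := val_false 0
      change tval (tok (0, false)) = val [((0 : Fin 2), false)]
      rw [h1, h2, s0_eq, mul_one, ← mul_assoc, ZX, mul_inv_rev, inv_inv]
    · have h1 : tval (tok (0, true)) = Z⁻¹ * (Y * (Y * (X * 1))) := rfl
      have h2 : val [((0 : Fin 2), true)] = s0 := val_true 0
      change tval (tok (0, true)) = val [((0 : Fin 2), true)]
      rw [h1, h2, s0_eq, mul_one, ← ZYY]
      simp only [mul_assoc]
  · cases b
    · have h1 : tval (tok (1, false)) = Z⁻¹ * (Y * (X * 1)) := rfl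
      have h2 : val [((1 : Fin 2), false)] = s1⁻¹ := val_false 1
      change tval (tok (1, false)) = val [((1 : Fin 2), false)]
      rw [h1, h2, s1_eq, mul_one, mul_inv_rev, inv_inv, ← ZY]
      simp only [mul_assoc]
    · have h1 : tval (tok (1, true)) = Z⁻¹ * (X * (Y * (Y * 1))) := rfl
      have h2 : val [((1 : Fin 2), true)] = s1 := val_true 1
      change tval (tok (1, true)) = val [((1 : Fin 2), true)]
      rw [h1, h2, s1_eq, mul_one, ← ZX]
      simp only [mul_assoc]

theorem tval_tw (w : Word) : tval (tw w) = val w := by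
  induction w with
  | nil => exact val_nil.symm
  | cons a w ih =>
    have h1 : tw (a :: w) = tok a ++ tw w := rfl
    have h2 : a :: w = [a] ++ w := rfl
    rw [h1, tval_append, ih, tval_tok, h2, val_append]

end Pool.Agent.helper76.DC
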