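import Pool.Agent.helper76.DC.Comp

/-!
# The double coset problem in `B₃`
-/

set_option autoImplicit false

namespace Pool.Agent.helper76.DC

/-- generators and inverses as token words -/
def conv (L : List Word) : List (List ℕ) := L.map tw ++ L.map (fun w => tw (FreeGroup.invRev w))

theorem conv_invC (L : List Word) : InvC (conv L) := by
  intro w hw
  unfold conv at hw ⊢
  rw [List.mem_append, List.mem_map, List.mem_map] at hw
  rcases hw with ⟨v, hv, rfl⟩ | ⟨v, hv, rfl⟩
  · refine ⟨tw (FreeGroup.invRev v), List.mem_append.2 (Or.inr (List.mem_map.2 ⟨v, hv, rfl⟩)), ?_⟩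
    rw [tval_tw, tval_tw, val_inv]
  · refine ⟨tw v, List.mem_append.2 (Or.inl (List.mem_map.2 ⟨v, hv, rfl⟩)), ?_⟩
    rw [tval_tw, tval_tw, val_inv, inv_inv]

theorem tsub_conv (L : List Word) : tsub (conv L) = sub L := by
  unfold tsub sub
  apply le_antisymm
  · rw [Subgroup.closure_le]
    rintro x ⟨w, hw, rfl⟩
    unfold conv at hw
    rw [List.mem_append, List.mem_map, List.mem_map] at hw
    rcases hw with ⟨v, hv, rfl⟩ | ⟨v, hv, rfl⟩
    · rw [tval_tw]
      exact Subgroup.subset_closure ⟨v, hv, rfl⟩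
    · rw [tval_tw, val_inv]
      exact inv_mem (Subgroup.subset_closure ⟨v, hv, rfl⟩)
  · rw [Subgroup.closure_le]
    rintro x ⟨w, hw, rfl⟩
    refine Subgroup.subset_closure ⟨tw w, ?_, tval_tw w⟩
    unfold conv
    exact List.mem_append.2 (Or.inl (List.mem_map.2 ⟨w, hw, rfl⟩))

/-- input of the double coset problem: generators of `A`, generators of `B`, the words `g`, `h` -/
abbrev WInp := (List Word × List Word) × (Word × Word)

def toInp (p : WInp) : Inp :=
  ((conv p.1.1, conv p.1.2), (tw p.2.2, tw (FreeGroup.invRev p.2.1)))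

theorem tw_prim : Primrec tw := by
  unfold tw
  exact Primrec.list_flatMap Primrec.id ((Primrec.dom_finite tok).comp Primrec.snd)

theorem inv_prim : Primrec (FreeGroup.invRev : Word → Word) := by
  unfold FreeGroup.invRev
  exact Primrec.list_reverse.comp (Primrec.list_map Primrec.id
    ((Primrec.pair Primrec.fst (Primrec.not.comp Primrec.snd)).comp Primrec.snd))

theorem conv_prim : Primrec conv := by
  unfold conv
  refine Primrec.list_append.comp (Primrec.list_map Primrec.id (tw_prim.comp Primrec.snd)) ?_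
  exact Primrec.list_map Primrec.id ((tw_prim.comp inv_prim).comp Primrec.snd)

theorem toInp_prim : Primrec toInp := by
  unfold toInp
  have hA : Primrec fun p : WInp => p.1.1 := Primrec.fst.comp Primrec.fst
  have hB : Primrec fun p : WInp => p.1.2 := Primrec.snd.comp Primrec.fst
  have hg : Primrec fun p : WInp => p.2.1 := Primrec.fst.comp Primrec.snd
  have hh : Primrec fun p : WInp => p.2.2 := Primrec.snd.comp Primrec.snd
  exact Primrec.pair (Primrec.pair (conv_prim.comp hA) (conv_prim.comp hB))
    (Primrec.pair (tw_prim.comp hh) (tw_prim.comp (inv_prim.comp hg)))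

/-- the membership `g ∈ A h B` in terms of the tokens -/
def Memb (p : WInp) : Prop :=
  ∃ a ∈ tsub (toInp p).1.1, ∃ b ∈ tsub (toInp p).1.2,
    a * tval (toInp p).2.1 * b * tval (toInp p).2.2 = 1

theorem memb_iff (p : WInp) :
    Memb p ↔ ∃ a ∈ sub p.1.1, ∃ b ∈ sub p.1.2, a * val p.2.2 * b = val p.2.1 := by
  unfold Memb toInp
  simp only [tsub_conv, tval_tw, val_inv, mul_inv_eq_one]

/-- an element of a closure of an inverse closed list is a product of members -/
theorem exists_list {L : List (List ℕ)} (hL : InvC L) {a : B3} (ha : a ∈ tsub L) :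
    ∃ u : List (List ℕ), (∀ w ∈ u, w ∈ L) ∧ tval u.flatten = a := by
  have h1 : a ∈ Submonoid.closure ({x | ∃ w ∈ L, tval w = x} ∪ {x | ∃ w ∈ L, tval w = x}⁻¹) := by
    rw [← Subgroup.closure_toSubmonoid]
    exact ha
  refine Submonoid.closure_induction
    (motive := fun a _ => ∃ u : List (List ℕ), (∀ w ∈ u, w ∈ L) ∧ tval u.flatten = a) ?_ ?_ ?_ h1
  · intro x hx
    have h2 : ∃ w ∈ L, tval w = x := by
      rcases hx with hx | hx
      · exact hx
      · obtain ⟨w, hw, hx⟩ := hx
        obtain ⟨w', hw', h3⟩ := hL w hw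
        exact ⟨w', hw', by rw [h3, hx, inv_inv]⟩
    obtain ⟨w, hw, rfl⟩ := h2
    exact ⟨[w], by simpa using hw, by simp⟩
  · exact ⟨[], by simp, rfl⟩
  · rintro x y _ _ ⟨u, hu, rfl⟩ ⟨v, hv, rfl⟩
    refine ⟨u ++ v, ?_, ?_⟩
    · intro w hw
      rw [List.mem_append] at hw
      rcases hw with hw | hw
      · exact hu w hw
      · exact hv w hw
    · rw [List.flatten_append, tval_append]

theorem mem_of_list {L : List (List ℕ)} {u : List (List ℕ)} (hu : ∀ w ∈ u, w ∈ L) :
    tval u.flatten ∈ tsub L := by
  induction u with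
  | nil => exact one_mem _
  | cons w u ih =>
    rw [List.flatten_cons, tval_append]
    exact mul_mem (Subgroup.subset_closure ⟨w, hu w (by simp), rfl⟩)
      (ih fun v hv => hu v (by simp [hv]))

theorem memb_pos (p : WInp) : (∃ c, Pos (toInp p) c) ↔ Memb p := by
  constructor
  · rintro ⟨⟨u, v⟩, hu, hv, h⟩
    refine ⟨_, mem_of_list hu, _, mem_of_list hv, ?_⟩
    rw [tval_append, tval_append, tval_append] at h
    simpa only [mul_assoc] using h
  · rintro ⟨a, ha, b, hb, h⟩
    obtain ⟨u, hu, rfl⟩ := exists_list (conv_invC _) ha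
    obtain ⟨v, hv, rfl⟩ := exists_list (conv_invC _) hb
    refine ⟨(u, v), hu, hv, ?_⟩
    rw [tval_append, tval_append, tval_append]
    simpa only [mul_assoc] using h

/-- **The uniform double coset problem of `B₃` is decidable**, membership form. -/
theorem memb_computable : ComputablePred Memb := by
  rw [ComputablePred.computable_iff_re_compl_re']
  constructor
  · refine REPred.of_eq (re_exists (R := fun (p : WInp) c => Pos (toInp p) c) ?_) memb_pos
    exact PrimrecPred.comp (f := fun x : WInp × (List (List ℕ) × List (List ℕ)) =>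
      (toInp x.1, x.2)) pos_prim (Primrec.pair (toInp_prim.comp Primrec.fst) Primrec.snd)
  · refine REPred.of_eq (re_exists (R := fun (p : WInp) c => Good (toInp p) c) ?_) ?_
    · exact PrimrecPred.comp (f := fun x : WInp × Cert => (toInp x.1, x.2)) good_prim
        (Primrec.pair (toInp_prim.comp Primrec.fst) Primrec.snd)
    · intro p
      exact cert_iff (conv_invC _) (conv_invC _)

theorem doubleCoset_eq_iff (A B : Subgroup B3) (g h : B3) :
    DoubleCoset.doubleCoset g (A : Set B3) B = DoubleCoset.doubleCoset h (A : Set B3) B ↔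
      ∃ a ∈ A, ∃ b ∈ B, a * h * b = g := by
  constructor
  · intro e
    have h1 : g ∈ DoubleCoset.doubleCoset g (A : Set B3) B := DoubleCoset.mem_doubleCoset_self A B g
    rw [e, DoubleCoset.mem_doubleCoset] at h1
    obtain ⟨a, ha, b, hb, e1⟩ := h1
    exact ⟨a, ha, b, hb, e1.symm⟩
  · rintro ⟨a, ha, b, hb, e⟩
    apply DoubleCoset.doubleCoset_eq_of_mem
    rw [DoubleCoset.mem_doubleCoset]
    exact ⟨a, ha, b, hb, e.symm⟩

/-- **The uniform double coset problem of `B₃` is decidable.** -/
theorem uniform : ComputablePred fun p : (List Word × List Word) × (Word × Word) =>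
    DoubleCoset.doubleCoset (val p.2.1) (sub p.1.1 : Set B3) (sub p.1.2) =
      DoubleCoset.doubleCoset (val p.2.2) (sub p.1.1 : Set B3) (sub p.1.2) :=
  memb_computable.of_eq fun p => (memb_iff p).trans (doubleCoset_eq_iff _ _ _ _).symm

theorem exists_words {A : Subgroup B3} (hA : A.FG) : ∃ L : List Word, sub L = A := by
  classical
  obtain ⟨S, hS⟩ := hA
  choose f hf using val_surj
  refine ⟨S.toList.map f, ?_⟩
  rw [← hS]
  unfold sub
  congr 1
  ext x
  simp only [List.mem_map, Finset.mem_toList, Set.mem_setOf_eq, Finset.mem_coe]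
  constructor
  · rintro ⟨w, ⟨y, hy, rfl⟩, rfl⟩
    rw [hf]
    exact hy
  · intro hx
    exact ⟨f x, ⟨x, hx, rfl⟩, hf x⟩

/-- **Q1.** -/
theorem each_pair (A B : Subgroup B3) (hA : A.FG) (hB : B.FG) :
    ComputablePred fun p : Word × Word =>
      DoubleCoset.doubleCoset (val p.1) (A : Set B3) B =
        DoubleCoset.doubleCoset (val p.2) (A : Set B3) B := by
  obtain ⟨L, rfl⟩ := exists_words hA
  obtain ⟨M, rfl⟩ := exists_words hB
  obtain ⟨f, hf, he⟩ := ComputablePred.computable_iff.1 uniform
  rw [ComputablePred.computable_iff]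
  refine ⟨fun p => f ((L, M), p), hf.comp ((Computable.const (L, M)).pair Computable.id), ?_⟩
  funext p
  exact congrFun he ((L, M), p)

end Pool.Agent.helper76.DC
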