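import Pool.Agent.helper76.DC.Grp

/-!
# The stack machine for words in the tokens, and the action of `B₃` on its states
-/

set_option autoImplicit false

namespace Pool.Agent.helper76.DC

/-- one token: `true` is `X`, `false` is `Y` on the stack -/
def stp {M : Type*} (inc dec : M → M) (l : ℕ) (st : M × List Bool) : M × List Bool :=
  if l = 0 then
    (if st.2.head? = some true then (inc st.1, st.2.tail) else (st.1, true :: st.2))
  else if l = 1 then
    (if st.2.head? = some false ∧ st.2.tail.head? = some false then (inc st.1, st.2.tail.tail)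
      else (st.1, false :: st.2))
  else if l = 2 then (dec st.1, st.2) else st

/-- the machine reads a word from right to left -/
def run {M : Type*} (inc dec : M → M) (m0 : M) (w : List ℕ) : M × List Bool :=
  w.foldr (stp inc dec) (m0, [])

/-- reduced stacks: no `XX`, no `YYY` -/
def Red : List Bool → Prop
  | [] => True
  | true :: s => s.head? ≠ some true ∧ Red s
  | false :: s => ¬ (s.head? = some false ∧ s.tail.head? = some false) ∧ Red s

theorem Red.tail {s : List Bool} (h : Red s) : Red s.tail := by
  match s, h with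
  | [], _ => trivial
  | true :: s, h => exact h.2
  | false :: s, h => exact h.2

section machine

variable {M : Type*} (inc dec : M → M)

theorem stp0_red {k : M} {s : List Bool} (h : Red s) : Red (stp inc dec 0 (k, s)).2 := by
  unfold stp
  simp only [if_true]
  split_ifs with h1
  · exact h.tail
  · exact ⟨h1, h⟩

theorem stp1_red {k : M} {s : List Bool} (h : Red s) : Red (stp inc dec 1 (k, s)).2 := by
  unfold stp
  simp only [one_ne_zero, if_false, if_true]
  split_ifs with h1
  · exact h.tail.tail
  · exact ⟨h1, h⟩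

theorem stp0_stp0 {k : M} {s : List Bool} (h : Red s) :
    stp inc dec 0 (stp inc dec 0 (k, s)) = (inc k, s) := by
  rcases s with _ | ⟨a, s⟩
  · simp [stp]
  · cases a
    · simp [stp]
    · have h1 : s.head? ≠ some true := h.1
      simp [stp, h1]

theorem stp1_cube {k : M} {s : List Bool} (h : Red s) :
    stp inc dec 1 (stp inc dec 1 (stp inc dec 1 (k, s))) = (inc k, s) := by
  rcases s with _ | ⟨a, s⟩
  · simp [stp]
  · cases a
    · rcases s with _ | ⟨b, s⟩
      · simp [stp]
      · cases b
        · have h1 : ¬ (s.head? = some false) := fun h2 => h.1 ⟨rfl, by simpa using h2⟩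
          simp [stp, h1]
        · simp [stp]
    · simp [stp]

end machine

section action

variable (M : Type*) [AddCommGroup M] (e : M)

/-- states with reduced stack -/
abbrev St := {p : M × List Bool // Red p.2}

variable {M}

def fX (p : St M) : St M :=
  ⟨stp (· + e) (· - e) 0 p.1, stp0_red _ _ p.2⟩

def fY (p : St M) : St M :=
  ⟨stp (· + e) (· - e) 1 p.1, stp1_red _ _ p.2⟩

def fZ (p : St M) : St M := ⟨(p.1.1 - e, p.1.2), p.2⟩

theorem fXX (p : St M) : fX e (fX e p) = ⟨(p.1.1 + e, p.1.2), p.2⟩ := by
  apply Subtype.ext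
  exact stp0_stp0 _ _ p.2

theorem fYYY (p : St M) : fY e (fY e (fY e p)) = ⟨(p.1.1 + e, p.1.2), p.2⟩ := by
  apply Subtype.ext
  exact stp1_cube _ _ p.2

theorem fX_shift (p : St M) (c : M) :
    fX e ⟨(p.1.1 + c, p.1.2), p.2⟩ = ⟨((fX e p).1.1 + c, (fX e p).1.2), (fX e p).2⟩ := by
  apply Subtype.ext
  obtain ⟨⟨k, s⟩, h⟩ := p
  simp only [fX, stp, if_true]
  split_ifs
  · simp only [Prod.mk.injEq, and_true]
    abel
  · rfl

theorem fY_shift (p : St M) (c : M) :
    fY e ⟨(p.1.1 + c, p.1.2), p.2⟩ = ⟨((fY e p).1.1 + c, (fY e p).1.2), (fY e p).2⟩ := by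
  apply Subtype.ext
  obtain ⟨⟨k, s⟩, h⟩ := p
  simp only [fY, stp, if_true, one_ne_zero, if_false]
  split_ifs
  · simp only [Prod.mk.injEq, and_true]
    abel
  · rfl

theorem fZ_eq (p : St M) : fZ e p = ⟨(p.1.1 + -e, p.1.2), p.2⟩ := by
  apply Subtype.ext
  simp [fZ, sub_eq_add_neg]

def permX : Equiv.Perm (St M) where
  toFun := fX e
  invFun := fun p => fZ e (fX e p)
  left_inv := by
    intro p
    simp only
    rw [fXX, fZ_eq]
    apply Subtype.ext
    simp
  right_inv := by
    intro p
    simp only
    rw [fZ_eq, fX_shift, fXX]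
    apply Subtype.ext
    simp

def permY : Equiv.Perm (St M) where
  toFun := fY e
  invFun := fun p => fZ e (fY e (fY e p))
  left_inv := by
    intro p
    simp only
    rw [fYYY, fZ_eq]
    apply Subtype.ext
    simp
  right_inv := by
    intro p
    simp only
    rw [fZ_eq, fY_shift, fYYY]
    apply Subtype.ext
    simp

theorem permX_sq : permX e * permX e = permY e * permY e * permY (M := M) e := by
  ext1 p
  change fX e (fX e p) = fY e (fY e (fY e p))
  rw [fXX, fYYY]

/-- images of the generators -/
def img : Fin 2 → Equiv.Perm (St M) :=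
  ![(permY e)⁻¹ * permX e, (permX e)⁻¹ * (permY e * permY e)]

theorem img_rel : ∀ r ∈ rels, FreeGroup.lift (img (M := M) e) r = 1 := by
  intro r hr
  rw [rels, Set.mem_singleton_iff] at hr
  subst hr
  have h := permX_sq (M := M) e
  simp only [map_mul, map_inv, FreeGroup.lift_apply_of, mul_inv_eq_one]
  have h0 : img (M := M) e 0 = (permY e)⁻¹ * permX e := rfl
  have h1 : img (M := M) e 1 = (permX e)⁻¹ * (permY e * permY e) := rfl
  rw [h0, h1]
  generalize permX (M := M) e = x at *
  generalize permY (M := M) e = y at *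
  have h2 : y⁻¹ * x * (x⁻¹ * (y * y)) * (y⁻¹ * x) = x := by group
  have h3 : x⁻¹ * (y * y) * (y⁻¹ * x) * (x⁻¹ * (y * y)) = x⁻¹ * (y * y * y) := by group
  rw [h2, h3, ← h]
  group

/-- the action -/
def act : B3 →* Equiv.Perm (St M) := PresentedGroup.toGroup (img_rel (M := M) e)

theorem act_s0 : act (M := M) e s0 = (permY e)⁻¹ * permX e := by
  have h := PresentedGroup.toGroup.of (img_rel (M := M) e) (x := 0)
  exact h

theorem act_s1 : act (M := M) e s1 = (permX e)⁻¹ * (permY e * permY e) := by
  have h := PresentedGroup.toGroup.of (img_rel (M := M) e) (x := 1)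
  exact h

theorem act_Y : act (M := M) e Y = permY e := by
  rw [Y, map_mul, act_s0, act_s1]
  group

theorem act_X : act (M := M) e X = permX e := by
  have h : X = Y * s0 := rfl
  rw [h, map_mul, act_Y, act_s0]
  group

theorem act_Zi (p : St M) : act (M := M) e Z⁻¹ p = fZ e p := by
  have h : act (M := M) e Z = permX e * permX e := by rw [Z, map_mul, act_X]
  rw [map_inv, h, Equiv.Perm.inv_eq_iff_eq]
  change p = fX e (fX e (fZ e p))
  rw [fXX]
  apply Subtype.ext
  simp [fZ]

theorem act_tv (l : ℕ) (p : St M) :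
    (act (M := M) e (tv l) p).1 = stp (· + e) (· - e) l p.1 := by
  match l with
  | 0 =>
    change (act (M := M) e X p).1 = _
    rw [act_X]
    rfl
  | 1 =>
    change (act (M := M) e Y p).1 = _
    rw [act_Y]
    rfl
  | 2 =>
    change (act (M := M) e Z⁻¹ p).1 = _
    rw [act_Zi]
    rfl
  | n + 3 =>
    change (act (M := M) e 1 p).1 = _
    rw [map_one]
    simp [stp]

theorem act_tval (w : List ℕ) :
    (act (M := M) e (tval w) ⟨(0, []), trivial⟩).1 = run (· + e) (· - e) 0 w := by
  induction w with
  | nil =>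
    rw [tval_nil, map_one]
    rfl
  | cons l w ih =>
    rw [tval_cons, map_mul, Equiv.Perm.mul_apply, act_tv, ih]
    rfl

/-- a trivial word is reduced to nothing by the machine -/
theorem run_of_tval_eq_one {w : List ℕ} (h : tval w = 1) :
    run (· + e) (· - e) (0 : M) w = (0, []) := by
  rw [← act_tval, h, map_one]
  rfl

end action

/-- change of weights -/
theorem run_map {M N : Type*} (φ : M → N) (inc dec : M → M) (inc' dec' : N → N)
    (h1 : ∀ k, φ (inc k) = inc' (φ k)) (h2 : ∀ k, φ (dec k) = dec' (φ k)) (m0 : M) (w : List ℕ) :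
    run inc' dec' (φ m0) w = (φ (run inc dec m0 w).1, (run inc dec m0 w).2) := by
  induction w with
  | nil => rfl
  | cons l w ih =>
    have e1 : run inc' dec' (φ m0) (l :: w) = stp inc' dec' l (run inc' dec' (φ m0) w) := rfl
    have e2 : run inc dec m0 (l :: w) = stp inc dec l (run inc dec m0 w) := rfl
    rw [e1, e2, ih]
    unfold stp
    split_ifs <;> simp [h1, h2]

/-- value of a stack -/
def sval : List Bool → B3
  | [] => 1
  | true :: s => X * sval s
  | false :: s => Y * sval s

theorem tval_eq_run (w : List ℕ) :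
    tval w = Z ^ (run (· + 1) (· - 1) (0 : ℤ) w).1 * sval (run (· + 1) (· - 1) (0 : ℤ) w).2 := by
  induction w with
  | nil =>
    simp [run, sval, tval]
  | cons l w ih =>
    have e2 : run (· + 1) (· - 1) (0 : ℤ) (l :: w) =
      stp (· + 1) (· - 1) l (run (· + 1) (· - 1) (0 : ℤ) w) := rfl
    rw [e2, tval_cons, ih]
    generalize run (· + 1) (· - 1) (0 : ℤ) w = st
    obtain ⟨k, s⟩ := st
    match l with
    | 0 =>
      change X * (Z ^ k * sval s) = _
      rcases s with _ | ⟨a, s⟩
      · simp [stp, sval, Zz_comm]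
      · cases a
        · have e3 : stp (· + 1) (· - 1) 0 (k, false :: s) = (k, true :: false :: s) := by
            simp [stp]
          rw [e3]
          simp only [sval]
          rw [← mul_assoc, ← Zz_comm, mul_assoc]
        · simp only [stp, sval, List.head?_cons, if_true, List.tail_cons]
          rw [zpow_add, zpow_one, ← mul_assoc, ← Zz_comm, Z]
          simp only [mul_assoc]
    | 1 =>
      change Y * (Z ^ k * sval s) = _
      simp only [stp, one_ne_zero, if_false, if_true]
      split_ifs with h
      · obtain ⟨h1, h2⟩ := h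
        rcases s with _ | ⟨a, s⟩
        · simp at h1
        · rcases s with _ | ⟨b, s⟩
          · simp at h2
          · simp only [List.head?_cons, Option.some.injEq, List.tail_cons] at h1 h2
            subst h1
            subst h2
            simp only [sval, List.tail_cons]
            rw [zpow_add, zpow_one, ← mul_assoc, ← Zz_comm, ← Y3]
            simp only [mul_assoc]
      · simp only [sval]
        rw [← mul_assoc, ← Zz_comm, mul_assoc]
    | 2 =>
      change Z⁻¹ * (Z ^ k * sval s) = _
      have e3 : stp (· + 1) (· - 1) 2 (k, s) = (k - 1, s) := by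
        simp [stp]
      rw [e3, ← mul_assoc, zpow_sub, zpow_one, Zi_comm]
    | n + 3 =>
      change 1 * (Z ^ k * sval s) = _
      simp [stp]

/-- machine with weights `(pos, neg)` -/
def nf (w : List ℕ) : (ℕ × ℕ) × List Bool :=
  run (fun p : ℕ × ℕ => (p.1 + 1, p.2)) (fun p : ℕ × ℕ => (p.1, p.2 + 1)) (0, 0) w

theorem tval_eq_one_iff (w : List ℕ) :
    tval w = 1 ↔ (nf w).1.1 = (nf w).1.2 ∧ (nf w).2 = [] := by
  have h := run_map (fun p : ℕ × ℕ => (p.1 : ℤ) - p.2) (fun p : ℕ × ℕ => (p.1 + 1, p.2))
    (fun p : ℕ × ℕ => (p.1, p.2 + 1)) (· + 1) (· - 1) (by intro k; push_cast; ring)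
    (by intro k; push_cast; ring) (0, 0) w
  have h' : run (· + 1) (· - 1) (0 : ℤ) w = (((nf w).1.1 : ℤ) - (nf w).1.2, (nf w).2) := by
    have h0 : (((0, 0) : ℕ × ℕ).1 : ℤ) - ((0, 0) : ℕ × ℕ).2 = 0 := by simp
    rw [h0] at h
    exact h
  constructor
  · intro h1
    have h2 := run_of_tval_eq_one (M := ℤ) 1 h1
    rw [h'] at h2
    simp only [Prod.mk.injEq] at h2
    exact ⟨by omega, h2.2⟩
  · rintro ⟨h1, h2⟩
    rw [tval_eq_run, h', h2, h1]
    simp [sval]

end Pool.Agent.helper76.DC
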